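import Mathlib

/-!
# Scheme-theoretic lemmas for the Frobenius example (MP_aca629_ag)
-/

universe u

open CategoryTheory CategoryTheory.Limits AlgebraicGeometry TopologicalSpace IsLocalRing

namespace Pool.Agent.TH623.SR

lemma stalkMap_bijective {X Y : Scheme.{u}} (f : X ⟶ Y) [Flat f] [SurjectiveOnStalks f] (x : X) :
    Function.Bijective (f.stalkMap x).hom := by
  refine ⟨?_, f.stalkMap_surjective x⟩
  algebraize [(f.stalkMap x).hom]
  have : Module.FaithfullyFlat (Y.presheaf.stalk (f x)) (X.presheaf.stalk x) :=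
    @Module.FaithfullyFlat.of_flat_of_isLocalHom _ _ _ _ _ _ _
      (Flat.stalkMap f x) (f.toLRSHom.prop x)
  exact ‹RingHom.FaithfullyFlat _›.injective

lemma flat_fromSpecStalk (X : Scheme.{u}) (x : X) : Flat (X.fromSpecStalk x) := by
  obtain ⟨_, ⟨U, hU, rfl⟩, hxU, -⟩ := X.isBasis_affineOpens.exists_subset_of_mem_open
    (Set.mem_univ x) isOpen_univ
  rw [← IsAffineOpen.fromSpecStalk_eq_fromSpecStalk hU hxU]
  unfold IsAffineOpen.fromSpecStalk
  have h1 : Flat (Spec.map (X.presheaf.germ U x hxU)) := by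
    rw [Flat.SpecMap_iff]
    let _ := (X.presheaf.germ U x hxU).hom.toAlgebra
    have := hU.isLocalization_stalk ⟨x, hxU⟩
    exact IsLocalization.flat (X.presheaf.stalk x) (hU.primeIdealOf ⟨x, hxU⟩).asIdeal.primeCompl
  have h2 : IsOpenImmersion hU.fromSpec := hU.isOpenImmersion_fromSpec
  exact Flat.comp _ _

/-- The stalk map at a point of an open over which the morphism is an isomorphism. -/
lemma stalkMap_bijective_of_isIso_restrict {X Y : Scheme.{u}} (m : X ⟶ Y) (V : Y.Opens)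
    [IsIso (m ∣_ V)] (x : X) (hx : m x ∈ V) : Function.Bijective (m.stalkMap x).hom := by
  have hx' : x ∈ m ⁻¹ᵁ V := hx
  let y : (m ⁻¹ᵁ V).toScheme := ⟨x, hx'⟩
  have e := morphismRestrictStalkMap m V y
  have h0 : IsOpenImmersion (m ∣_ V) := inferInstance
  have h1 : IsIso ((m ∣_ V).stalkMap y) := inferInstance
  have h2 : IsIso (m.stalkMap x) :=
    ((MorphismProperty.isomorphisms CommRingCat).arrow_mk_iso_iff e).1 h1
  exact ConcreteCategory.bijective_of_isIso (m.stalkMap x)

/-- Lifting a morphism from a one-point scheme along a modification. -/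
lemma exists_lift_modification {P X' Z : Scheme.{u}} (j : Z ⟶ P) (m : X' ⟶ P) (V : P.Opens)
    (hV : Dense (V : Set P)) [IsIso (m ∣_ V)] (hV' : Dense ((m ⁻¹ᵁ V : X'.Opens) : Set X'))
    [IsDominant j] (z0 : Z) (hz : ∀ z : Z, z = z0) :
    ∃ s : Z ⟶ X', s ≫ m = j ∧ m (s z0) ∈ V ∧ ∀ x' : X', s z0 ⤳ x' := by
  have hj : ∀ y : P, j z0 ⤳ y := by
    intro y
    rw [specializes_iff_mem_closure]
    have h1 := j.denseRange y
    rwa [show Set.range j = {j z0} from by
      ext w
      constructor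
      · rintro ⟨z, rfl⟩
        rw [hz z]
        rfl
      · rintro rfl
        exact ⟨z0, rfl⟩] at h1
  have hjV : j z0 ∈ V := by
    have : Nonempty P := ⟨j z0⟩
    obtain ⟨y, hy⟩ := hV.nonempty
    exact (hj y).mem_open V.2 hy
  have hrange : Set.range j ⊆ Set.range V.ι := by
    rintro _ ⟨z, rfl⟩
    rw [hz z, Scheme.Opens.range_ι]
    exact hjV
  let jV := IsOpenImmersion.lift V.ι j hrange
  have hjVι : jV ≫ V.ι = j := IsOpenImmersion.lift_fac _ _ _
  let ψ : V.toScheme ⟶ X' := inv (m ∣_ V) ≫ (m ⁻¹ᵁ V).ι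
  have hψm : ψ ≫ m = V.ι := by
    simp only [ψ, Category.assoc]
    rw [← morphismRestrict_ι, IsIso.inv_hom_id_assoc]
  have hψ : (m ∣_ V) ≫ ψ = (m ⁻¹ᵁ V).ι := by
    simp only [ψ, IsIso.hom_inv_id_assoc]
  refine ⟨jV ≫ ψ, by rw [Category.assoc, hψm, hjVι], ?_, ?_⟩
  · rw [← Scheme.Hom.comp_apply, Category.assoc, hψm, hjVι]
    exact hjV
  · -- specialization
    have h1 : ∀ y ∈ (m ⁻¹ᵁ V : X'.Opens), (jV ≫ ψ) z0 ⤳ y := by
      intro y hy
      let y' : (m ⁻¹ᵁ V).toScheme := ⟨y, hy⟩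
      have h2 : jV z0 ⤳ (m ∣_ V) y' := by
        rw [← V.ι.isOpenEmbedding.isInducing.specializes_iff, ← Scheme.Hom.comp_apply, hjVι]
        exact hj _
      have h3 := h2.map ψ.continuous
      have h5 : ψ ((m ∣_ V) y') = y := by
        rw [← Scheme.Hom.comp_apply, hψ]
        rfl
      rw [h5] at h3
      rw [Scheme.Hom.comp_apply]
      exact h3
    intro x'
    rw [specializes_iff_mem_closure]
    have h4 : ((m ⁻¹ᵁ V : X'.Opens) : Set X') ⊆ closure {(jV ≫ ψ) z0} := fun y hy =>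
      specializes_iff_mem_closure.1 (h1 y hy)
    exact closure_minimal h4 isClosed_closure (hV' x')

/-- Every element of the generic stalk is a fraction of elements of any stalk, and the kernel of
the map to the generic stalk is nil. -/
lemma generic_stalk {X : Scheme.{u}} {ξ x : X} (hξ : ∀ y : X, ξ ⤳ y) :
    (∀ e : X.presheaf.stalk ξ, ∃ c d : X.presheaf.stalk x,
      IsUnit ((X.presheaf.stalkSpecializes (hξ x)).hom d) ∧
      e * (X.presheaf.stalkSpecializes (hξ x)).hom d =
        (X.presheaf.stalkSpecializes (hξ x)).hom c) ∧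
    (∀ c : X.presheaf.stalk x, (X.presheaf.stalkSpecializes (hξ x)).hom c = 0 →
      IsNilpotent c) := by
  obtain ⟨_, ⟨U, hU, rfl⟩, hxU, -⟩ := X.isBasis_affineOpens.exists_subset_of_mem_open
    (Set.mem_univ x) isOpen_univ
  have hξU : ξ ∈ U := (hξ x).mem_open U.2 hxU
  have hgerm : ∀ f : Γ(X, U), (X.presheaf.stalkSpecializes (hξ x)).hom
      ((X.presheaf.germ U x hxU).hom f) = (X.presheaf.germ U ξ hξU).hom f := by
    intro f
    have := TopCat.Presheaf.germ_stalkSpecializes X.presheaf hxU (hξ x)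
    rw [← this]
    rfl
  constructor
  · intro e
    let _ := (X.presheaf.germ U ξ hξU).hom.toAlgebra
    have hloc := hU.isLocalization_stalk ⟨ξ, hξU⟩
    obtain ⟨⟨c, d⟩, hcd⟩ := IsLocalization.surj
      (hU.primeIdealOf ⟨ξ, hξU⟩).asIdeal.primeCompl e
    refine ⟨(X.presheaf.germ U x hxU).hom c, (X.presheaf.germ U x hxU).hom d, ?_, ?_⟩
    · rw [hgerm]
      exact IsLocalization.map_units (X.presheaf.stalk ξ) d
    · rw [hgerm, hgerm]
      exact hcd
  · intro c hc
    let _ := (X.presheaf.germ U x hxU).hom.toAlgebra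
    have hloc := hU.isLocalization_stalk ⟨x, hxU⟩
    obtain ⟨⟨w, d⟩, hcd⟩ := IsLocalization.surj
      (hU.primeIdealOf ⟨x, hxU⟩).asIdeal.primeCompl c
    have hdu : IsUnit ((X.presheaf.germ U x hxU).hom (d : Γ(X, U))) :=
      IsLocalization.map_units (X.presheaf.stalk x) d
    have hcd' : c * (X.presheaf.germ U x hxU).hom (d : Γ(X, U)) =
      (X.presheaf.germ U x hxU).hom w := hcd
    have hw0 : (X.presheaf.germ U ξ hξU).hom w = 0 := by
      rw [← hgerm, ← hcd', map_mul, hc, zero_mul]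
    have hwn : IsNilpotent w := by
      rw [Scheme.isNilpotent_iff_basicOpen_eq_bot_of_isCompact hU.isCompact]
      by_contra hne
      have hne' : ((X.basicOpen w : X.Opens) : Set X).Nonempty := by
        rw [Set.nonempty_iff_ne_empty]
        intro h0
        exact hne (by ext1; exact h0)
      obtain ⟨y, hy⟩ := hne'
      have hξw : ξ ∈ X.basicOpen w := (hξ y).mem_open (X.basicOpen w).2 hy
      rw [Scheme.mem_basicOpen X w ξ hξU] at hξw
      have : (X.presheaf.germ U ξ hξU) w = 0 := hw0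
      rw [this] at hξw
      exact not_isUnit_zero hξw
    have hgn : IsNilpotent (c * (X.presheaf.germ U x hxU).hom (d : Γ(X, U))) := by
      rw [hcd']
      exact hwn.map _
    obtain ⟨n, hn⟩ := hgn
    refine ⟨n, ?_⟩
    rw [mul_pow] at hn
    exact (hdu.pow n).mul_left_eq_zero.1 hn

/-- Compatibility of the stalk maps. -/
lemma stalk_compat {X B : Scheme.{u}} {T : CommRingCat.{u}} [IsLocalRing T] (f : X ⟶ B)
    (s : Spec T ⟶ X) (η : B) (a : B.presheaf.stalk η ⟶ T)
    (hs : s ≫ f = Spec.map a ≫ B.fromSpecStalk η) (x : X) (hx : s (closedPoint T) ⤳ x)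
    (hη : η ⤳ f x) :
    f.stalkMap x ≫ X.presheaf.stalkSpecializes hx ≫ Scheme.stalkClosedPointTo s =
      B.presheaf.stalkSpecializes hη ≫ a := by
  apply Spec.map_injective
  rw [← cancel_mono (B.fromSpecStalk (f x))]
  simp only [Spec.map_comp, Category.assoc]
  rw [Scheme.SpecMap_stalkMap_fromSpecStalk, Scheme.SpecMap_stalkSpecializes_fromSpecStalk,
    Scheme.SpecMap_stalkSpecializes_fromSpecStalk_assoc, ← hs,
    Scheme.Spec_stalkClosedPointTo_fromSpecStalk_assoc]

end Pool.Agent.TH623.SR
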